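import Pool.Agent.U18.FBM.CR
import Pool.Agent.TH54.BU.BurnDef

/-!
# Congruence classes of the free Burnside monoids for `x = x ^ (1 + p)`

If the free Burnside group of exponent `p` on two generators is infinite then the congruence class
of the word `(a b) ^ p` for the congruence generated by the pairs `(x, x ^ (1 + p))` is not regular.
-/

set_option autoImplicit false

namespace Pool.Agent.U18.FBM

open Pool.Agent.TH54.BU (powSub)

/-- the generating pairs of the congruence -/
def gen (p : ℕ) : FreeMonoid (Fin 2) → FreeMonoid (Fin 2) → Prop :=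
  fun a b => ∃ x : FreeMonoid (Fin 2), a = x ^ 1 ∧ b = x ^ (1 + p)

/-- the congruence -/
abbrev co (p : ℕ) : Con (FreeMonoid (Fin 2)) := conGen (gen p)

theorem coe_pow' (c : Con (FreeMonoid (Fin 2))) (x : FreeMonoid (Fin 2)) (n : ℕ) :
    ((x ^ n : FreeMonoid (Fin 2)) : c.Quotient) = (x : c.Quotient) ^ n :=
  map_pow (Con.mk' c) x n

theorem quot_pow (p : ℕ) (y : (co p).Quotient) : y ^ (p + 1) = y := by
  induction y using Con.induction_on with
  | _ x =>
    have h : co p (x ^ 1) (x ^ (1 + p)) := ConGen.Rel.of _ _ ⟨x, rfl, rfl⟩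
    rw [← coe_pow', Con.eq]
    rw [pow_one, add_comm] at h
    exact (co p).symm h

/-- the free Burnside group of exponent `p` on two generators -/
abbrev BG (p : ℕ) : Type := FreeGroup (Fin 2) ⧸ powSub (FreeGroup (Fin 2)) p

theorem bg_pow (p : ℕ) (g : BG p) : g ^ p = 1 := by
  obtain ⟨x, rfl⟩ := QuotientGroup.mk_surjective g
  rw [← QuotientGroup.mk_pow, QuotientGroup.eq_one_iff]
  exact Subgroup.subset_normalClosure ⟨x, rfl⟩

/-- the natural homomorphism onto the free Burnside group -/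
def psi (p : ℕ) : FreeMonoid (Fin 2) →* BG p :=
  FreeMonoid.lift fun i => ((FreeGroup.of i : FreeGroup (Fin 2)) : BG p)

theorem psi_of (p : ℕ) (i : Fin 2) : psi p (FreeMonoid.of i) = ((FreeGroup.of i : FreeGroup (Fin 2)) : BG p) := by
  simp [psi]

theorem psi_con (p : ℕ) {a b : FreeMonoid (Fin 2)} (h : co p a b) : psi p a = psi p b := by
  have h1 : co p ≤ Con.ker (psi p) := by
    refine Con.conGen_le.2 ?_
    rintro a b ⟨x, rfl, rfl⟩
    rw [Con.ker_rel, pow_add, pow_one, map_mul, map_pow _ _ p, bg_pow, mul_one]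
  exact h1 h

theorem psi_surj (p : ℕ) (hp : 1 ≤ p) : Function.Surjective (psi p) := by
  have hinv : ∀ g : BG p, g⁻¹ = g ^ (p - 1) := by
    intro g
    rw [inv_eq_iff_mul_eq_one, ← pow_succ', Nat.sub_add_cancel hp, bg_pow]
  intro g
  obtain ⟨x, rfl⟩ := QuotientGroup.mk_surjective g
  induction x using FreeGroup.induction_on with
  | C1 => exact ⟨1, by rw [map_one]; rfl⟩
  | of i => exact ⟨FreeMonoid.of i, psi_of p i⟩
  | inv_of i _ =>
    refine ⟨FreeMonoid.of i ^ (p - 1), ?_⟩
    rw [map_pow, psi_of, ← hinv]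
    rfl
  | mul x y hx hy =>
    obtain ⟨u, hu⟩ := hx
    obtain ⟨v, hv⟩ := hy
    exact ⟨u * v, by rw [map_mul, hu, hv]; rfl⟩

/-- the word `(a b) ^ p` -/
def w0 (p : ℕ) : FreeMonoid (Fin 2) := (FreeMonoid.of 0 * FreeMonoid.of 1) ^ p

theorem jle_w0 (p : ℕ) (hp : 1 ≤ p) (v : FreeMonoid (Fin 2)) :
    Jle ((w0 p : FreeMonoid (Fin 2)) : (co p).Quotient) (v : (co p).Quotient) := by
  obtain ⟨k, rfl⟩ : ∃ k, p = k + 1 := ⟨p - 1, by omega⟩
  have hid : ((w0 (k + 1) : FreeMonoid (Fin 2)) : (co (k + 1)).Quotient) *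
      ((w0 (k + 1) : FreeMonoid (Fin 2)) : (co (k + 1)).Quotient) =
      ((w0 (k + 1) : FreeMonoid (Fin 2)) : (co (k + 1)).Quotient) := by
    rw [w0, coe_pow']
    exact idem hp (quot_pow (k + 1)) _
  induction v using FreeMonoid.inductionOn' with
  | one => exact Jle.one _
  | of_mul i v ih =>
    rw [Con.coe_mul]
    refine jle_mul hp (quot_pow (k + 1)) hid ?_ ih
    have h0 : w0 (k + 1) = 1 * FreeMonoid.of 0 * (FreeMonoid.of 1 *
        (FreeMonoid.of 0 * FreeMonoid.of 1) ^ k) := by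
      rw [w0, pow_succ']
      simp only [mul_assoc, one_mul]
    have h1 : w0 (k + 1) = FreeMonoid.of 0 * FreeMonoid.of 1 *
        ((FreeMonoid.of 0 * FreeMonoid.of 1) ^ k) := by
      rw [w0, pow_succ']
    fin_cases i
    · refine ⟨1, ((FreeMonoid.of 1 * (FreeMonoid.of 0 * FreeMonoid.of 1) ^ k :
        FreeMonoid (Fin 2)) : (co (k + 1)).Quotient), ?_⟩
      conv_lhs => rw [h0]
      rw [Con.coe_mul, Con.coe_mul, Con.coe_one]
      rfl
    · refine ⟨((FreeMonoid.of 0 : FreeMonoid (Fin 2)) : (co (k + 1)).Quotient),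
        (((FreeMonoid.of 0 * FreeMonoid.of 1) ^ k : FreeMonoid (Fin 2)) :
          (co (k + 1)).Quotient), ?_⟩
      conv_lhs => rw [h1]
      rw [Con.coe_mul, Con.coe_mul]
      rfl

theorem co_pow (p : ℕ) (hp : 1 ≤ p) (v : FreeMonoid (Fin 2)) :
    co p ((w0 p * v * w0 p) ^ p) (w0 p) := by
  rw [← Con.eq, coe_pow', Con.coe_mul, Con.coe_mul]
  refine pow_eq hp (quot_pow p) ?_ (jle_w0 p hp v)
  rw [w0, coe_pow']
  exact idem hp (quot_pow p) _

theorem not_regular (p : ℕ) (hp : 1 ≤ p) (hinf : Infinite (BG p)) {σ : Type} [Fintype σ]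
    (M : DFA (Fin 2) σ) :
    M.accepts ≠ {v : List (Fin 2) | co p (FreeMonoid.ofList v) (w0 p)} := by
  intro hM
  have hacc : ∀ v : List (Fin 2), M.eval v ∈ M.accept ↔ co p (FreeMonoid.ofList v) (w0 p) := by
    intro v
    exact Set.ext_iff.1 hM v
  choose f hf using psi_surj p hp
  obtain ⟨g, g', hne, hgg⟩ := Finite.exists_ne_map_eq_of_infinite
    (fun g : BG p => M.eval (FreeMonoid.toList (w0 p * f g * w0 p)))
  apply hne
  set u := w0 p * f g * w0 p with hu
  set u' := w0 p * f g' * w0 p with hu'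
  have hw : psi p (w0 p) = 1 := by rw [w0, map_pow, bg_pow]
  have hpu : psi p u = g := by rw [hu, map_mul, map_mul, hw, hf, one_mul, mul_one]
  have hpu' : psi p u' = g' := by rw [hu', map_mul, map_mul, hw, hf, one_mul, mul_one]
  have h1 : M.eval (FreeMonoid.toList u ++ FreeMonoid.toList (u ^ (p - 1))) ∈ M.accept := by
    rw [hacc, FreeMonoid.ofList_append, FreeMonoid.ofList_toList, FreeMonoid.ofList_toList,
      ← pow_succ', Nat.sub_add_cancel hp]
    exact co_pow p hp _
  have h2 : M.eval (FreeMonoid.toList u' ++ FreeMonoid.toList (u ^ (p - 1))) ∈ M.accept := by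
    have h3 : M.eval (FreeMonoid.toList u' ++ FreeMonoid.toList (u ^ (p - 1))) =
        M.eval (FreeMonoid.toList u ++ FreeMonoid.toList (u ^ (p - 1))) := by
      simp only [DFA.eval, DFA.evalFrom_of_append]
      have h4 : M.evalFrom M.start (FreeMonoid.toList u) =
        M.evalFrom M.start (FreeMonoid.toList u') := hgg
      rw [h4]
    rw [h3]
    exact h1
  rw [hacc, FreeMonoid.ofList_append, FreeMonoid.ofList_toList, FreeMonoid.ofList_toList] at h2
  have h5 := psi_con p h2
  rw [map_mul, map_pow, hpu, hpu', hw] at h5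
  have h6 : g * g ^ (p - 1) = 1 := by rw [← pow_succ', Nat.sub_add_cancel hp, bg_pow]
  exact mul_right_cancel (h6.trans h5.symm)

end Pool.Agent.U18.FBM
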