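import Mathlib

/-!
# Completely regular monoids with `y ^ (m + 1) = y`

In a monoid with `y ^ (m + 1) = y` for all `y` (where `m ≥ 1`), if `e` is idempotent and `e` lies in
the two-sided ideal generated by `v`, then `(e v e) ^ m = e`.
-/

set_option autoImplicit false

namespace Pool.Agent.U18.FBM

variable {S : Type*} [Monoid S]

/-- `e` lies in the two-sided ideal generated by `s` -/
def Jle (e s : S) : Prop := ∃ x y : S, e = x * s * y

theorem Jle.trans {a b c : S} (h : Jle a b) (h' : Jle b c) : Jle a c := by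
  obtain ⟨x, y, rfl⟩ := h
  obtain ⟨u, v, rfl⟩ := h'
  exact ⟨x * u, v * y, by simp only [mul_assoc]⟩

theorem Jle.refl (a : S) : Jle a a := ⟨1, 1, by simp⟩

theorem Jle.mulr (a b : S) : Jle (a * b) a := ⟨1, b, by simp⟩

theorem Jle.one (a : S) : Jle a 1 := ⟨a, 1, by simp⟩

variable {m : ℕ} (hm : 1 ≤ m) (hS : ∀ y : S, y ^ (m + 1) = y)

include hm hS

theorem jle_comm (c d : S) : Jle (c * d) (d * c) := by
  obtain ⟨k, rfl⟩ : ∃ k, m = k + 1 := ⟨m - 1, by omega⟩
  refine ⟨c, (d * c) ^ k * d, ?_⟩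
  have h1 : (c * d) ^ (k + 1 + 1) = c * (d * c) ^ (k + 1) * d := by
    rw [pow_succ, ← mul_assoc, mul_pow_mul]
  rw [hS] at h1
  rw [h1, pow_succ' (d * c)]
  simp only [mul_assoc]

theorem jle_mul {e s t : S} (he : e * e = e) (h1 : Jle e s) (h2 : Jle e t) : Jle e (s * t) := by
  obtain ⟨x, y, hx⟩ := h1
  obtain ⟨u, w, hu⟩ := h2
  have h3 : Jle e ((s * (y * u)) * t) := by
    refine ⟨x, w, ?_⟩
    calc e = e * e := he.symm
      _ = (x * s * y) * (u * t * w) := by rw [← hx, ← hu]
      _ = _ := by simp only [mul_assoc]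
  refine (h3.trans (jle_comm hm hS _ _)).trans ?_
  rw [← mul_assoc]
  exact (Jle.mulr _ _).trans (jle_comm hm hS _ _)

theorem idem (g : S) : g ^ m * g ^ m = g ^ m := by
  obtain ⟨k, rfl⟩ : ∃ k, m = k + 1 := ⟨m - 1, by omega⟩
  have h : g ^ (k + 1) * g ^ (k + 1) = g ^ (k + 1 + 1) * g ^ k := by
    rw [← pow_add, ← pow_add]
    congr 1
    omega
  rw [h, hS, ← pow_succ']

theorem pow_eq {e v : S} (he : e * e = e) (h : Jle e v) : (e * v * e) ^ m = e := by
  obtain ⟨k, rfl⟩ : ∃ k, m = k + 1 := ⟨m - 1, by omega⟩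
  set g := e * v * e with hg
  have hJ : Jle e g := jle_mul hm hS he (jle_mul hm hS he (Jle.refl e) h) (Jle.refl e)
  have heg : e * g = g := by rw [hg, ← mul_assoc, ← mul_assoc, he]
  have hge : g * e = g := by rw [hg, mul_assoc, he]
  set f := g ^ (k + 1) with hf
  have hef : e * f = f := by rw [hf, pow_succ', ← mul_assoc, heg]
  have hfe : f * e = f := by rw [hf, pow_succ, mul_assoc, hge]
  have hff : f * f = f := idem hm hS g
  have hgf : g * f = g := by rw [hf, ← pow_succ', hS]
  obtain ⟨x0, y, hxy⟩ := hJ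
  have hx1 : e = (x0 * g) * f * y := by
    rw [mul_assoc x0, hgf]
    exact hxy
  set x := x0 * g with hx
  set x' := e * x * f with hx'
  have e1 : x' * (f * y * e) = e := by
    calc x' * (f * y * e) = e * (x * (f * f) * y) * e := by rw [hx']; simp only [mul_assoc]
      _ = e * (x * f * y) * e := by rw [hff]
      _ = e := by rw [← hx1, he, he]
  have ex : e * x' = x' := by rw [hx', ← mul_assoc, ← mul_assoc, he]
  have xf : x' * f = x' := by rw [hx', mul_assoc, hff]
  set h := x' ^ (k + 1) with hh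
  have hf' : h * f = h := by rw [hh, pow_succ, mul_assoc, xf]
  have hx2 : h * x' = x' := by rw [hh, ← pow_succ, hS]
  have he' : h * e = e := by
    conv_lhs => rw [← e1]
    rw [← mul_assoc, hx2, e1]
  have h1 : h * e * f = f := by rw [he', hef]
  have h2 : h * e * f = h := by rw [mul_assoc, hef, hf']
  have h3 : f = h := h1.symm.trans h2
  rw [← hfe, h3, he']

end Pool.Agent.U18.FBM
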